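import Mathlib

/-!
# MP_302605_an: optimal anisotropies for the Cheeger constant exist in all dimensions

`J Ω K = h_K(Ω) |K°|^{1/N}` is invariant under scaling of `K`, so one may take a minimizing sequence
`K_n` of circumradius `1`.  A vector `w ∈ K` gives `h_K(Ω) ≥ c |w|` (test with a field parallel to
`w`), so `|K_n°|` is bounded.  As `K_n°` is convex and contains the unit ball, `K_n°` is bounded,
i.e. `K_n` contains a fixed ball.  A subsequence converges in the Hausdorff metric, hence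
`(1 + ε)⁻¹ K ⊆ K_n ⊆ (1 + ε) K`, and `J` is continuous for this convergence.
-/

set_option autoImplicit false

open MeasureTheory Set Topology Filter
open scoped ENNReal Pointwise

noncomputable section

namespace Pool.Agent.Results.MP_302605_an.OptimalAnisotropy

/-- `ℝ^N` -/
abbrev En (N : ℕ) := EuclideanSpace ℝ (Fin N)

variable {N : ℕ}

/-- `K ∈ 𝒦_N`: `K` is a non-empty, open, bounded, convex, centrally symmetric set. -/
structure Anisotropy (K : Set (En N)) : Prop where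
  nonempty : K.Nonempty
  isOpen : IsOpen K
  bounded : Bornology.IsBounded K
  convex : Convex ℝ K
  symm : ∀ x ∈ K, -x ∈ K

/-- The polar set `K° = {x | x · y < 1 for all y ∈ K}`. -/
def polar (K : Set (En N)) : Set (En N) := {x | ∀ y ∈ K, inner ℝ x y < 1}

/-- The divergence of a vector field. -/
def div (φ : En N → En N) (x : En N) : ℝ := ∑ i, (fderiv ℝ φ x (EuclideanSpace.single i 1)) i

/-- The anisotropic perimeter
`P_K(E) = sup {∫_E div φ : φ ∈ C¹_c(ℝ^N; ℝ^N), φ(x) ∈ K for all x}`. -/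
def perimeter (K E : Set (En N)) : ℝ≥0∞ :=
  ⨆ (φ : En N → En N) (_ : ContDiff ℝ 1 φ) (_ : HasCompactSupport φ) (_ : ∀ x, φ x ∈ K),
    ENNReal.ofReal (∫ x in E, div φ x)

/-- The Cheeger constant `h_K(Ω) = inf {P_K(E) / |E| : E ⊆ Ω, |E| > 0}`. -/
def cheeger (K Ω : Set (En N)) : ℝ≥0∞ :=
  ⨅ (E : Set (En N)) (_ : MeasurableSet E) (_ : E ⊆ Ω) (_ : 0 < volume E),
    perimeter K E / volume E

/-- The functional `J_Ω[K] = h_K(Ω) |K°|^{1/N}`. -/
def J (Ω K : Set (En N)) : ℝ≥0∞ := cheeger K Ω * volume (polar K) ^ (1 / (N : ℝ))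

lemma Anisotropy.zero_mem {K : Set (En N)} (hK : Anisotropy K) : (0 : En N) ∈ K := by
  obtain ⟨x, hx⟩ := hK.nonempty
  have h := hK.convex hx (hK.symm x hx) (a := 1 / 2) (b := 1 / 2) (by norm_num) (by norm_num)
    (by norm_num)
  simpa using h

lemma Anisotropy.smul_mem {K : Set (En N)} (hK : Anisotropy K) {w : En N} (hw : w ∈ K) {s : ℝ}
    (hs : |s| ≤ 1) : s • w ∈ K := by
  rcases le_total 0 s with h | h
  · rw [abs_of_nonneg h] at hs
    have h2 := hK.convex hw hK.zero_mem (a := s) (b := 1 - s) h (by linarith) (by ring)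
    simpa using h2
  · rw [abs_of_nonpos h] at hs
    have h2 := hK.convex (hK.symm w hw) hK.zero_mem (a := -s) (b := 1 + s) (by linarith)
      (by linarith) (by ring)
    simpa using h2

lemma Anisotropy.smul {K : Set (En N)} (hK : Anisotropy K) {c : ℝ} (hc : 0 < c) :
    Anisotropy (c • K) where
  nonempty := hK.nonempty.smul_set
  isOpen := hK.isOpen.smul₀ hc.ne'
  bounded := hK.bounded.smul₀ c
  convex := hK.convex.smul c
  symm := by
    rintro _ ⟨x, hx, rfl⟩
    exact ⟨-x, hK.symm x hx, by simp⟩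

lemma div_smul {φ : En N → En N} (h : ContDiff ℝ 1 φ) (c : ℝ) (x : En N) :
    div (fun x => c • φ x) x = c * div φ x := by
  have h1 : fderiv ℝ (fun x => c • φ x) x = c • fderiv ℝ φ x :=
    fderiv_fun_const_smul (h.differentiable (by norm_num)).differentiableAt c
  rw [div, h1, div, Finset.mul_sum]
  refine Finset.sum_congr rfl fun i _ => ?_
  simp

lemma perimeter_le {K K' E : Set (En N)} {c : ℝ} (hc : 0 < c) (h : K ⊆ c • K') :
    perimeter K E ≤ ENNReal.ofReal c * perimeter K' E := by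
  refine iSup_le fun φ => iSup_le fun h1 => iSup_le fun h2 => iSup_le fun h3 => ?_
  have e : ENNReal.ofReal (∫ x in E, div φ x) =
      ENNReal.ofReal c * ENNReal.ofReal (∫ x in E, div (fun x => c⁻¹ • φ x) x) := by
    rw [← ENNReal.ofReal_mul hc.le]
    congr 1
    rw [← integral_const_mul]
    congr 1
    funext x
    rw [div_smul h1, ← mul_assoc, mul_inv_cancel₀ hc.ne', one_mul]
  rw [e]
  gcongr
  refine le_iSup_of_le (fun x => c⁻¹ • φ x) (le_iSup_of_le (h1.const_smul _)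
    (le_iSup_of_le ?_ (le_iSup_of_le ?_ le_rfl)))
  · exact h2.comp_left (g := fun y => c⁻¹ • y) (smul_zero _)
  · intro x
    obtain ⟨y, hy, hyx⟩ := h (h3 x)
    have : c⁻¹ • φ x = y := by
      rw [← hyx]
      show c⁻¹ • c • y = y
      rw [smul_smul, inv_mul_cancel₀ hc.ne', one_smul]
    show c⁻¹ • φ x ∈ K'
    rw [this]
    exact hy

lemma cheeger_le {K K' Ω : Set (En N)} {c : ℝ} (hc : 0 < c) (h : K ⊆ c • K') :
    cheeger K Ω ≤ ENNReal.ofReal c * cheeger K' Ω := by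
  have hc0 : ENNReal.ofReal c ≠ 0 := by rwa [Ne, ENNReal.ofReal_eq_zero, not_le]
  rw [← ENNReal.inv_mul_le_iff hc0 ENNReal.ofReal_ne_top]
  refine le_iInf fun E => le_iInf fun h1 => le_iInf fun h2 => le_iInf fun h3 => ?_
  rw [ENNReal.inv_mul_le_iff hc0 ENNReal.ofReal_ne_top]
  have h4 : cheeger K Ω ≤ perimeter K E / volume E :=
    iInf_le_of_le E (iInf_le_of_le h1 (iInf_le_of_le h2 (iInf_le_of_le h3 le_rfl)))
  refine h4.trans ?_
  rw [div_eq_mul_inv, div_eq_mul_inv, ← mul_assoc]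
  gcongr
  exact perimeter_le hc h

lemma polar_subset {K K' : Set (En N)} {c : ℝ} (hc : 0 < c) (h : K ⊆ c • K') :
    polar K' ⊆ c • polar K := by
  intro x hx
  refine ⟨c⁻¹ • x, ?_, ?_⟩
  · intro y hy
    obtain ⟨z, hz, rfl⟩ := h hy
    show inner ℝ (c⁻¹ • x) (c • z) < 1
    rw [inner_smul_left, inner_smul_right]
    simp only [conj_trivial]
    rw [← mul_assoc, inv_mul_cancel₀ hc.ne', one_mul]
    exact hx z hz
  · show c • c⁻¹ • x = x
    rw [smul_smul, mul_inv_cancel₀ hc.ne', one_smul]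

lemma vol_le (hN : N ≠ 0) {K K' : Set (En N)} {c : ℝ} (hc : 0 < c) (h : K ⊆ c • K') :
    volume (polar K') ^ (1 / (N : ℝ)) ≤ ENNReal.ofReal c * volume (polar K) ^ (1 / (N : ℝ)) := by
  have h1 : volume (polar K') ≤ ENNReal.ofReal (c ^ N) * volume (polar K) := by
    refine (measure_mono (polar_subset hc h)).trans ?_
    rw [Measure.addHaar_smul, finrank_euclideanSpace_fin, abs_of_pos (by positivity)]
  calc volume (polar K') ^ (1 / (N : ℝ))
      ≤ (ENNReal.ofReal (c ^ N) * volume (polar K)) ^ (1 / (N : ℝ)) :=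
        ENNReal.rpow_le_rpow h1 (by positivity)
    _ = ENNReal.ofReal c * volume (polar K) ^ (1 / (N : ℝ)) := by
        rw [ENNReal.mul_rpow_of_nonneg _ _ (by positivity),
          ENNReal.ofReal_rpow_of_nonneg (by positivity) (by positivity), one_div,
          Real.pow_rpow_inv_natCast hc.le hN]

lemma J_le (hN : N ≠ 0) {Ω K K' : Set (En N)} {a b : ℝ} (ha : 0 < a) (hb : 0 < b)
    (h1 : K ⊆ a • K') (h2 : K' ⊆ b • K) : J Ω K ≤ ENNReal.ofReal (a * b) * J Ω K' := by
  calc J Ω K ≤ (ENNReal.ofReal a * cheeger K' Ω) *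
        (ENNReal.ofReal b * volume (polar K') ^ (1 / (N : ℝ))) :=
        mul_le_mul' (cheeger_le ha h1) (vol_le hN hb h2)
    _ = ENNReal.ofReal (a * b) * J Ω K' := by
        rw [ENNReal.ofReal_mul ha.le, J]
        ring

/-- convex sets which contain the unit ball and have bounded volume are bounded -/
lemma bounded_of_volume {V : ℝ≥0∞} (hV : V ≠ ⊤) : ∃ R : ℝ, 0 < R ∧ ∀ P : Set (En N),
    Convex ℝ P → Metric.ball 0 1 ⊆ P → volume P ≤ V → P ⊆ Metric.closedBall 0 R := by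
  have hβ : volume (Metric.ball (0 : En N) (1 / 2)) ≠ 0 :=
    (Metric.measure_ball_pos _ _ (by norm_num)).ne'
  obtain ⟨M, hM⟩ := ENNReal.exists_nat_mul_gt hβ hV
  refine ⟨2 * M + 1, by positivity, fun P hP hB hvol x hx => ?_⟩
  by_contra hcon
  rw [Metric.mem_closedBall, dist_zero_right, not_le] at hcon
  have hx0 : 0 < ‖x‖ := lt_of_le_of_lt (by positivity) hcon
  let u : En N := ‖x‖⁻¹ • x
  have hu : ‖u‖ = 1 := by
    rw [norm_smul, norm_inv, norm_norm, inv_mul_cancel₀ hx0.ne']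
  let B : ℕ → Set (En N) := fun j => Metric.ball ((j : ℝ) • u) (1 / 2)
  have hBP : ∀ j ∈ Finset.range M, B j ⊆ P := by
    intro j hj z hz
    have hj' : (j : ℝ) < M := by exact_mod_cast Finset.mem_range.1 hj
    have h1 : ‖z - (j : ℝ) • u‖ < 1 / 2 := by
      rw [← dist_eq_norm]; exact hz
    obtain ⟨t, ht⟩ : ∃ t : ℝ, t = j / ‖x‖ := ⟨_, rfl⟩
    have ht0 : 0 ≤ t := by rw [ht]; positivity
    have ht1 : t < 1 / 2 := by
      rw [ht, div_lt_iff₀ hx0]
      linarith
    have h2 : (1 - t)⁻¹ • (z - (j : ℝ) • u) ∈ Metric.ball (0 : En N) 1 := by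
      rw [mem_ball_zero_iff, norm_smul, norm_inv, Real.norm_eq_abs, abs_of_pos (by linarith),
        inv_mul_lt_iff₀ (by linarith)]
      linarith
    have h3 := hP hx (hB h2) ht0 (by linarith : 0 ≤ 1 - t) (by ring)
    have h4 : t • x + (1 - t) • (1 - t)⁻¹ • (z - (j : ℝ) • u) = z := by
      rw [smul_smul, mul_inv_cancel₀ (by linarith), one_smul]
      show t • x + (z - (j : ℝ) • ‖x‖⁻¹ • x) = z
      rw [smul_smul, ← div_eq_mul_inv, ← ht]
      abel
    rwa [h4] at h3
  have hdis : Set.PairwiseDisjoint (↑(Finset.range M) : Set ℕ) B := by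
    intro i _ j _ hij
    refine Metric.ball_disjoint_ball ?_
    rw [dist_eq_norm, ← sub_smul, norm_smul, hu, mul_one, Real.norm_eq_abs]
    have h1 : (1 : ℤ) ≤ |(i : ℤ) - j| := Int.one_le_abs (by
      intro h; apply hij; omega)
    have h2 : (1 : ℝ) ≤ |(i : ℝ) - j| := by exact_mod_cast h1
    linarith
  have h5 : volume (⋃ j ∈ Finset.range M, B j) =
      M * volume (Metric.ball (0 : En N) (1 / 2)) := by
    rw [measure_biUnion_finset hdis fun _ _ => measurableSet_ball]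
    have h6 : ∀ j ∈ Finset.range M, volume (B j) = volume (Metric.ball (0 : En N) (1 / 2)) :=
      fun j _ => Measure.addHaar_ball_center volume ((j : ℝ) • u) (1 / 2)
    rw [Finset.sum_congr rfl h6]
    rw [Finset.sum_const, Finset.card_range, nsmul_eq_mul]
  have h6 : volume (⋃ j ∈ Finset.range M, B j) ≤ volume P :=
    measure_mono (iUnion₂_subset hBP)
  rw [h5] at h6
  exact absurd (h6.trans hvol) (not_le.2 hM)

lemma polar_convex (K : Set (En N)) : Convex ℝ (polar K) := by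
  intro x hx x' hx' a b ha hb hab y hy
  rw [inner_add_left, inner_smul_left, inner_smul_left]
  simp only [conj_trivial]
  have h1 := hx y hy
  have h2 := hx' y hy
  rcases ha.eq_or_lt with h | h
  · rw [← h] at hab ⊢
    rw [zero_add] at hab
    rw [hab]
    linarith
  · nlinarith

lemma ball_subset_polar {K : Set (En N)} (h : K ⊆ Metric.closedBall 0 1) :
    Metric.ball 0 1 ⊆ polar K := by
  intro x hx y hy
  have h1 : ‖x‖ < 1 := mem_ball_zero_iff.1 hx
  have h2 : ‖y‖ ≤ 1 := mem_closedBall_zero_iff.1 (h hy)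
  calc inner ℝ x y ≤ ‖x‖ * ‖y‖ := real_inner_le_norm x y
    _ ≤ ‖x‖ * 1 := by gcongr
    _ < 1 := by linarith

lemma ball_subset_of_polar {K : Set (En N)} (hK : Anisotropy K) {R : ℝ} (hR : 0 < R)
    (h : polar K ⊆ Metric.closedBall 0 R) : Metric.ball 0 R⁻¹ ⊆ K := by
  intro y hy
  by_contra hcon
  rw [mem_ball_zero_iff] at hy
  obtain ⟨f, hf⟩ := geometric_hahn_banach_open_point hK.convex hK.isOpen hcon
  have hfy : 0 < f y := by
    have := hf 0 hK.zero_mem
    rwa [map_zero] at this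
  let v : En N := (InnerProductSpace.toDual ℝ (En N)).symm f
  have hv : ∀ z, inner ℝ v z = f z := fun z => by
    rw [InnerProductSpace.toDual_symm_apply]
  have h1 : (f y)⁻¹ • v ∈ polar K := by
    intro z hz
    rw [inner_smul_left, hv]
    simp only [conj_trivial]
    rw [inv_mul_lt_iff₀ hfy, mul_one]
    exact hf z hz
  have h2 := mem_closedBall_zero_iff.1 (h h1)
  have h3 : inner ℝ ((f y)⁻¹ • v) y = 1 := by
    rw [inner_smul_left, hv]
    simp only [conj_trivial]
    exact inv_mul_cancel₀ hfy.ne'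
  have h4 := real_inner_le_norm ((f y)⁻¹ • v) y
  rw [h3] at h4
  have h5 : ‖(f y)⁻¹ • v‖ * ‖y‖ ≤ R * ‖y‖ := by gcongr
  have h6 : R * ‖y‖ < R * R⁻¹ := by gcongr
  rw [mul_inv_cancel₀ hR.ne'] at h6
  linarith

/-- the lower bound for the Cheeger constant -/
lemma cheeger_ge {K Ω : Set (En N)} (hK : Anisotropy K) {ρ : ℝ} (hρ : 0 < ρ)
    (hΩ : Ω ⊆ Metric.ball 0 ρ) {w : En N} (hw : w ∈ K) :
    ENNReal.ofReal (‖w‖ / (ρ + 1)) ≤ cheeger K Ω := by
  rcases eq_or_ne w 0 with rfl | hw0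
  · simp
  have hwn : 0 < ‖w‖ := norm_pos_iff.2 hw0
  refine le_iInf fun E => le_iInf fun h1 => le_iInf fun h2 => le_iInf fun h3 => ?_
  have hE : volume E ≠ ⊤ :=
    ((measure_mono (h2.trans hΩ)).trans_lt measure_ball_lt_top).ne
  rw [ENNReal.le_div_iff_mul_le (Or.inl h3.ne') (Or.inl hE)]
  let χ : ContDiffBump (0 : En N) := ⟨ρ, ρ + 1, hρ, by linarith⟩
  let φ : En N → En N := fun x => (χ x * (inner ℝ w x / ((ρ + 1) * ‖w‖))) • w
  have hφ : ContDiff ℝ 1 φ := by
    refine ContDiff.smul (ContDiff.mul χ.contDiff ?_) contDiff_const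
    exact ContDiff.div_const (contDiff_const.inner ℝ contDiff_id) _
  have hφ2 : HasCompactSupport φ := by
    refine χ.hasCompactSupport.mono ?_
    intro x hx hx'
    apply hx
    show (χ x * _) • w = 0
    rw [hx', zero_mul, zero_smul]
  have hφ3 : ∀ x, φ x ∈ K := by
    intro x
    refine hK.smul_mem hw ?_
    by_cases hx : x ∈ Metric.ball (0 : En N) (ρ + 1)
    · rw [mem_ball_zero_iff] at hx
      rw [abs_mul, abs_of_nonneg χ.nonneg, abs_div, abs_of_pos (by positivity : 0 < (ρ + 1) * ‖w‖)]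
      have h4 : |inner ℝ w x| ≤ ‖w‖ * ‖x‖ := abs_real_inner_le_norm w x
      have h5 : |inner ℝ w x| / ((ρ + 1) * ‖w‖) ≤ 1 := by
        rw [div_le_one (by positivity)]
        nlinarith
      have h6 : 0 ≤ |inner ℝ w x| / ((ρ + 1) * ‖w‖) := by positivity
      calc χ x * (|inner ℝ w x| / ((ρ + 1) * ‖w‖)) ≤ 1 * 1 :=
            mul_le_mul χ.le_one h5 h6 zero_le_one
        _ = 1 := one_mul 1
    · have : χ x = 0 := by
        rw [← Function.notMem_support, χ.support_eq]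
        exact hx
      rw [this, zero_mul, abs_zero]
      exact zero_le_one
  have hdiv : ∀ x ∈ E, div φ x = ‖w‖ / (ρ + 1) := by
    intro x hx
    have hx' := hΩ (h2 hx)
    have h4 : φ =ᶠ[𝓝 x] fun x => (inner ℝ w x / ((ρ + 1) * ‖w‖)) • w := by
      filter_upwards [Metric.isOpen_ball.mem_nhds hx'] with z hz
      show (χ z * _) • w = _
      rw [χ.one_of_mem_closedBall (Metric.ball_subset_closedBall hz), one_mul]
    let L : En N →L[ℝ] En N := (((ρ + 1) * ‖w‖)⁻¹ • (innerSL ℝ w)).smulRight w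
    have h5 : (fun x : En N => (inner ℝ w x / ((ρ + 1) * ‖w‖)) • w) = L := by
      funext z
      simp [L, div_eq_inv_mul]
    rw [div, h4.fderiv_eq, h5, ContinuousLinearMap.fderiv]
    have h6 : ∀ i, (L (EuclideanSpace.single i 1)) i = ((ρ + 1) * ‖w‖)⁻¹ * (w i * w i) := by
      intro i
      simp [L, EuclideanSpace.inner_single_right]
      ring
    rw [Finset.sum_congr rfl fun i _ => h6 i, ← Finset.mul_sum]
    have h7 : ∑ i, w i * w i = ‖w‖ ^ 2 := by
      rw [EuclideanSpace.norm_eq, Real.sq_sqrt (by positivity)]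
      refine Finset.sum_congr rfl fun i _ => ?_
      rw [Real.norm_eq_abs, sq_abs, sq]
    rw [h7]
    field_simp
  have hint : ∫ x in E, div φ x = (volume E).toReal * (‖w‖ / (ρ + 1)) := by
    rw [setIntegral_congr_fun h1 hdiv, setIntegral_const, smul_eq_mul]
    rfl
  calc ENNReal.ofReal (‖w‖ / (ρ + 1)) * volume E
      = ENNReal.ofReal (∫ x in E, div φ x) := by
        rw [hint, ENNReal.ofReal_mul ENNReal.toReal_nonneg, ENNReal.ofReal_toReal hE, mul_comm]
    _ ≤ perimeter K E := le_iSup_of_le φ (le_iSup_of_le hφ (le_iSup_of_le hφ2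
        (le_iSup_of_le hφ3 le_rfl)))

/-- normalization of the circumradius -/
lemma normalize (hN : N ≠ 0) (Ω : Set (En N)) {K : Set (En N)} (hK : Anisotropy K) :
    ∃ K' : Set (En N), Anisotropy K' ∧ J Ω K' ≤ J Ω K ∧ K' ⊆ Metric.closedBall 0 1 ∧
      ∃ w ∈ K', 1 / 2 < ‖w‖ := by
  obtain ⟨C, hC⟩ := hK.bounded.exists_norm_le
  have hbdd : BddAbove ((fun x => ‖x‖) '' K) := ⟨C, by
    rintro _ ⟨x, hx, rfl⟩
    exact hC x hx⟩
  have hle : ∀ x ∈ K, ‖x‖ ≤ sSup ((fun x => ‖x‖) '' K) := fun x hx =>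
    le_csSup hbdd ⟨x, hx, rfl⟩
  obtain ⟨s, hs⟩ : ∃ s : ℝ, s = sSup ((fun x => ‖x‖) '' K) := ⟨_, rfl⟩
  rw [← hs] at hle
  have hs0 : 0 < s := by
    obtain ⟨ε, hε, hεK⟩ := Metric.isOpen_iff.1 hK.isOpen 0 hK.zero_mem
    let i : Fin N := ⟨0, Nat.pos_of_ne_zero hN⟩
    have h1 : (ε / 2) • (EuclideanSpace.single i (1 : ℝ)) ∈ K := by
      apply hεK
      rw [mem_ball_zero_iff, norm_smul, PiLp.norm_single, norm_one, mul_one,
        Real.norm_eq_abs, abs_of_pos (by positivity)]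
      linarith
    have h2 := hle _ h1
    rw [norm_smul, PiLp.norm_single, norm_one, mul_one,
        Real.norm_eq_abs, abs_of_pos (by positivity)] at h2
    linarith
  obtain ⟨_, ⟨w, hw, rfl⟩, hw2⟩ := exists_lt_of_lt_csSup (hK.nonempty.image _)
    (show s / 2 < sSup ((fun x => ‖x‖) '' K) by rw [← hs]; linarith)
  have hsi : 0 < s⁻¹ := inv_pos.2 hs0
  refine ⟨s⁻¹ • K, hK.smul hsi, ?_, ?_, s⁻¹ • w, ⟨w, hw, rfl⟩, ?_⟩
  · have h := J_le hN (Ω := Ω) hsi hs0 (subset_refl (s⁻¹ • K)) (by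
      rw [smul_smul, mul_inv_cancel₀ hs0.ne', one_smul])
    rwa [inv_mul_cancel₀ hs0.ne', ENNReal.ofReal_one, one_mul] at h
  · rintro _ ⟨x, hx, rfl⟩
    rw [mem_closedBall_zero_iff]
    show ‖s⁻¹ • x‖ ≤ 1
    rw [norm_smul, Real.norm_eq_abs, abs_of_pos hsi, inv_mul_le_iff₀ hs0, mul_one]
    exact hle x hx
  · rw [norm_smul, Real.norm_eq_abs, abs_of_pos hsi, lt_inv_mul_iff₀ hs0]
    simpa [div_eq_mul_inv] using hw2

/-- compactness -/
lemma limit (K : ℕ → Set (En N)) (hK : ∀ n, Anisotropy (K n))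
    (h1 : ∀ n, K n ⊆ Metric.closedBall 0 1) {r : ℝ} (hr : 0 < r)
    (h2 : ∀ n, Metric.ball 0 r ⊆ K n) :
    ∃ C : Set (En N), Anisotropy C ∧ ∀ ε : ℝ, 0 < ε → ∀ n0 : ℕ, ∃ n, n0 ≤ n ∧
      C ⊆ (1 + ε) • K n ∧ K n ⊆ (1 + ε) • C := by
  let Z : Type := Metric.closedBall (0 : En N) 1
  have hZ : CompactSpace Z := isCompact_iff_compactSpace.1 (isCompact_closedBall _ _)
  have hcl : ∀ n, closure (K n) ⊆ Metric.closedBall 0 1 := fun n =>
    closure_minimal (h1 n) Metric.isClosed_closedBall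
  let L : ℕ → TopologicalSpace.NonemptyCompacts Z := fun n =>
    ⟨⟨(Subtype.val : Z → En N) ⁻¹' closure (K n),
      (isClosed_closure.preimage continuous_subtype_val).isCompact⟩, by
        have h0 := subset_closure (hK n).zero_mem
        exact ⟨⟨0, hcl n h0⟩, h0⟩⟩
  obtain ⟨S, f, hf, hlim⟩ := CompactSpace.tendsto_subseq L
  let D : Set (En N) := (Subtype.val : Z → En N) '' (S : Set Z)
  have hD : IsClosed D := (S.isCompact.image continuous_subtype_val).isClosed
  have hd : ∀ δ : ℝ, 0 < δ → ∀ᶠ n in atTop,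
      (∀ x ∈ D, ∃ y ∈ closure (K (f n)), ‖x - y‖ < δ) ∧
      (∀ y ∈ closure (K (f n)), ∃ x ∈ D, ‖x - y‖ < δ) := by
    intro δ hδ
    filter_upwards [(Metric.tendsto_nhds.1 hlim) δ hδ] with n hn
    rw [Metric.NonemptyCompacts.dist_eq] at hn
    have hfin : Metric.hausdorffEDist (L (f n) : Set Z) (S : Set Z) ≠ ⊤ :=
      Metric.hausdorffEDist_ne_top_of_nonempty_of_bounded (L (f n)).nonempty S.nonempty
        (L (f n)).isCompact.isBounded S.isCompact.isBounded
    constructor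
    · rintro _ ⟨x, hx, rfl⟩
      obtain ⟨y, hy, hxy⟩ := Metric.exists_dist_lt_of_hausdorffDist_lt' hx hn hfin
      refine ⟨y, hy, ?_⟩
      rw [← dist_eq_norm, dist_comm]
      exact hxy
    · intro y hy
      obtain ⟨x, hx, hxy⟩ := Metric.exists_dist_lt_of_hausdorffDist_lt
        (x := (⟨y, hcl _ hy⟩ : Z)) (show _ ∈ (L (f n) : Set Z) from hy) hn hfin
      refine ⟨x, ⟨x, hx, rfl⟩, ?_⟩
      rw [← dist_eq_norm, dist_comm]
      exact hxy
  -- `D` is closed under limits of points of the `closure (K n)`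
  have hmem : ∀ z : En N, (∀ δ : ℝ, 0 < δ → ∀ᶠ n in atTop,
      ∃ y ∈ closure (K (f n)), ‖z - y‖ < δ) → z ∈ D := by
    intro z hz
    rw [← hD.closure_eq, Metric.mem_closure_iff]
    intro δ hδ
    obtain ⟨n, hn1, hn2⟩ := ((hz (δ / 2) (by positivity)).and (hd (δ / 2) (by positivity))).exists
    obtain ⟨y, hy, hzy⟩ := hn1
    obtain ⟨x, hx, hxy⟩ := hn2.2 y hy
    refine ⟨x, hx, ?_⟩
    rw [dist_eq_norm]
    calc ‖z - x‖ = ‖(z - y) - (x - y)‖ := by congr 1; abel
      _ ≤ ‖z - y‖ + ‖x - y‖ := norm_sub_le _ _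
      _ < δ := by linarith
  have hball : Metric.ball 0 r ⊆ D := by
    intro z hz
    refine hmem z fun δ hδ => Eventually.of_forall fun n =>
      ⟨z, subset_closure (h2 _ hz), by simpa using hδ⟩
  have hDc : Convex ℝ D := by
    intro x hx y hy a b ha hb hab
    refine hmem _ fun δ hδ => ?_
    filter_upwards [hd δ hδ] with n hn
    obtain ⟨x', hx', hxx⟩ := hn.1 x hx
    obtain ⟨y', hy', hyy⟩ := hn.1 y hy
    refine ⟨a • x' + b • y', (hK _).convex.closure hx' hy' ha hb hab, ?_⟩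
    calc ‖a • x + b • y - (a • x' + b • y')‖ = ‖a • (x - x') + b • (y - y')‖ := by
          congr 1
          rw [smul_sub, smul_sub]; abel
      _ ≤ a * ‖x - x'‖ + b * ‖y - y'‖ := by
          refine (norm_add_le _ _).trans ?_
          rw [norm_smul, norm_smul, Real.norm_of_nonneg ha, Real.norm_of_nonneg hb]
      _ < δ := by
          rcases ha.eq_or_lt with h | h
          · rw [← h] at hab ⊢
            rw [zero_add] at hab
            rw [hab]
            linarith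
          · nlinarith
  have hsymm : ∀ x ∈ D, -x ∈ D := by
    intro x hx
    refine hmem _ fun δ hδ => ?_
    filter_upwards [hd δ hδ] with n hn
    obtain ⟨x', hx', hxx⟩ := hn.1 x hx
    refine ⟨-x', ?_, ?_⟩
    · exact map_mem_closure continuous_neg hx' (fun z hz => (hK (f n)).symm z hz)
    · have h3 : -x - -x' = -(x - x') := by abel
      rw [h3, norm_neg]
      exact hxx
  have hDb : Bornology.IsBounded D := (Metric.isBounded_closedBall (x := (0 : En N)) (r := 1)).subset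
    (by rintro _ ⟨x, _, rfl⟩; exact x.2)
  have hint : Metric.ball 0 r ⊆ interior D := interior_maximal hball Metric.isOpen_ball
  refine ⟨interior D, ⟨⟨0, hint (Metric.mem_ball_self hr)⟩, isOpen_interior,
    hDb.subset interior_subset, hDc.interior, ?_⟩, ?_⟩
  · intro x hx
    have h3 : (Neg.neg ⁻¹' interior D : Set (En N)) ⊆ interior D :=
      interior_maximal (fun z hz => by simpa using hsymm _ (interior_subset hz))
        (isOpen_interior.preimage continuous_neg)
    apply h3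
    show - -x ∈ interior D
    rwa [neg_neg]
  · intro ε hε n0
    -- the geometric step
    have key : ∀ (P Q : Set (En N)), Convex ℝ Q → Metric.ball 0 r ⊆ interior Q →
        (∀ x ∈ P, ∃ y ∈ closure Q, ‖x - y‖ < ε * r) → P ⊆ (1 + ε) • interior Q := by
      intro P Q hQ hQr hPQ x hx
      obtain ⟨y, hy, hxy⟩ := hPQ x hx
      have h3 : ε⁻¹ • (x - y) ∈ interior Q := by
        apply hQr
        rw [mem_ball_zero_iff, norm_smul, Real.norm_of_nonneg (inv_pos.2 hε).le,
          inv_mul_lt_iff₀ hε]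
        exact hxy
      have h4 := hQ.combo_closure_interior_mem_interior hy h3 (a := (1 + ε)⁻¹)
        (b := (1 + ε)⁻¹ * ε) (by positivity) (by positivity) (by field_simp)
      refine ⟨_, h4, ?_⟩
      show (1 + ε) • ((1 + ε)⁻¹ • y + ((1 + ε)⁻¹ * ε) • ε⁻¹ • (x - y)) = x
      have h5 : (1 + ε) * (1 + ε)⁻¹ = 1 := mul_inv_cancel₀ (by positivity)
      have h6 : (1 + ε) * ((1 + ε)⁻¹ * ε) * ε⁻¹ = 1 := by
        rw [← mul_assoc, h5, one_mul, mul_inv_cancel₀ hε.ne']
      rw [smul_add, smul_smul, smul_smul, smul_smul, h5, h6, one_smul, one_smul]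
      abel
    obtain ⟨n, hn, hn0⟩ := ((hd (ε * r) (by positivity)).and (eventually_ge_atTop n0)).exists
    refine ⟨f n, hn0.trans (hf.le_apply), ?_, ?_⟩
    · have := key (interior D) (K (f n)) (hK _).convex (by
        rw [(hK _).isOpen.interior_eq]; exact h2 _) (fun x hx => hn.1 x (interior_subset hx))
      rwa [(hK _).isOpen.interior_eq] at this
    · refine key (K (f n)) D hDc hint fun y hy => ?_
      obtain ⟨x, hx, hxy⟩ := hn.2 y (subset_closure hy)
      exact ⟨x, subset_closure hx, by rwa [norm_sub_rev]⟩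

/-- the unit ball -/
lemma ball_anisotropy : Anisotropy (Metric.ball (0 : En N) 1) where
  nonempty := ⟨0, Metric.mem_ball_self one_pos⟩
  isOpen := Metric.isOpen_ball
  bounded := Metric.isBounded_ball
  convex := convex_ball _ _
  symm := by
    intro x hx
    rw [mem_ball_zero_iff] at hx ⊢
    rwa [norm_neg]

lemma exists_min (hN : N ≠ 0) (Ω : Set (En N)) (hΩ : Bornology.IsBounded Ω) :
    ∃ K : Set (En N), Anisotropy K ∧ ∀ K' : Set (En N), Anisotropy K' → J Ω K ≤ J Ω K' := by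
  obtain ⟨ρ, hρ, hΩρ⟩ : ∃ ρ : ℝ, 0 < ρ ∧ Ω ⊆ Metric.ball 0 ρ := by
    obtain ⟨ρ, hρ⟩ := hΩ.subset_ball_lt 0 0
    exact ⟨ρ, hρ⟩
  obtain ⟨m, hm⟩ : ∃ m : ℝ≥0∞, m = ⨅ (K : Set (En N)) (_ : Anisotropy K), J Ω K := ⟨_, rfl⟩
  have hmle : ∀ K : Set (En N), Anisotropy K → m ≤ J Ω K := fun K hK => by
    rw [hm]; exact iInf_le_of_le K (iInf_le_of_le hK le_rfl)
  by_cases hmt : m = ⊤
  · refine ⟨_, ball_anisotropy, fun K' hK' => ?_⟩
    have := hmle K' hK'
    rw [hmt, top_le_iff] at this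
    rw [this]
    exact le_top
  have hex : ∀ a : ℝ≥0∞, m < a → ∃ K : Set (En N), Anisotropy K ∧ J Ω K < a ∧
      K ⊆ Metric.closedBall 0 1 ∧ ∃ w ∈ K, 1 / 2 < ‖w‖ := by
    intro a ha
    rw [hm, iInf_lt_iff] at ha
    obtain ⟨K, hK⟩ := ha
    rw [iInf_lt_iff] at hK
    obtain ⟨hK, hKa⟩ := hK
    obtain ⟨K', h1, h2, h3, h4⟩ := normalize hN Ω hK
    exact ⟨K', h1, h2.trans_lt hKa, h3, h4⟩
  have hpos : ∀ n : ℕ, m < m + ((n : ℝ≥0∞) + 1)⁻¹ := fun n =>
    ENNReal.lt_add_right hmt (by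
      rw [Ne, ENNReal.inv_eq_zero]
      exact ENNReal.add_ne_top.2 ⟨ENNReal.natCast_ne_top n, ENNReal.one_ne_top⟩)
  choose K hK hKJ hK1 w hwK hw using fun n : ℕ => hex _ (hpos n)
  -- volume bound
  have hJ1 : ∀ n, J Ω (K n) ≤ m + 1 := fun n => (hKJ n).le.trans (by
    gcongr
    rw [ENNReal.inv_le_one]
    exact le_add_self)
  obtain ⟨c, hc⟩ : ∃ c : ℝ, c = 1 / 2 / (ρ + 1) := ⟨_, rfl⟩
  have hc0 : 0 < c := by rw [hc]; positivity
  have hvol : ∀ n, volume (polar (K n)) ≤ ((ENNReal.ofReal c)⁻¹ * (m + 1)) ^ (N : ℝ) := by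
    intro n
    have h1 : ENNReal.ofReal c ≤ cheeger (K n) Ω := by
      refine le_trans (ENNReal.ofReal_le_ofReal ?_) (cheeger_ge (hK n) hρ hΩρ (hwK n))
      rw [hc]
      gcongr
      exact (hw n).le
    have h2 : ENNReal.ofReal c * volume (polar (K n)) ^ (1 / (N : ℝ)) ≤ m + 1 :=
      le_trans (mul_le_mul' h1 le_rfl) (hJ1 n)
    have h3 : volume (polar (K n)) ^ (1 / (N : ℝ)) ≤ (ENNReal.ofReal c)⁻¹ * (m + 1) := by
      rw [mul_comm] at h2
      rw [mul_comm, ← div_eq_mul_inv, ENNReal.le_div_iff_mul_le (Or.inl (by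
        rwa [Ne, ENNReal.ofReal_eq_zero, not_le])) (Or.inl ENNReal.ofReal_ne_top)]
      exact h2
    have hN' : (N : ℝ) ≠ 0 := Nat.cast_ne_zero.2 hN
    calc volume (polar (K n)) = (volume (polar (K n)) ^ (1 / (N : ℝ))) ^ (N : ℝ) := by
          rw [← ENNReal.rpow_mul, one_div, inv_mul_cancel₀ hN', ENNReal.rpow_one]
      _ ≤ _ := ENNReal.rpow_le_rpow h3 (Nat.cast_nonneg N)
  have hVt : ((ENNReal.ofReal c)⁻¹ * (m + 1)) ^ (N : ℝ) ≠ ⊤ := by
    refine ENNReal.rpow_ne_top_of_nonneg (Nat.cast_nonneg N) (ENNReal.mul_ne_top ?_ ?_)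
    · rw [Ne, ENNReal.inv_eq_top, ENNReal.ofReal_eq_zero, not_le]
      exact hc0
    · exact ENNReal.add_ne_top.2 ⟨hmt, ENNReal.one_ne_top⟩
  obtain ⟨R, hR, hRP⟩ := bounded_of_volume (N := N) hVt
  have hball : ∀ n, Metric.ball 0 R⁻¹ ⊆ K n := fun n =>
    ball_subset_of_polar (hK n) hR (hRP _ (polar_convex _) (ball_subset_polar (hK1 n)) (hvol n))
  obtain ⟨C, hC, hCl⟩ := limit K hK hK1 (inv_pos.2 hR) hball
  refine ⟨C, hC, fun K' hK' => le_trans ?_ (hmle K' hK')⟩
  -- `J C ≤ (1 + ε)² a` for all `a > m`, `ε > 0`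
  have h5 : ∀ ε : ℝ, 0 < ε → ∀ n0 : ℕ,
      J Ω C ≤ ENNReal.ofReal ((1 + ε) * (1 + ε)) * (m + ((n0 : ℝ≥0∞) + 1)⁻¹) := by
    intro ε hε n0
    obtain ⟨n, hn, h6, h7⟩ := hCl ε hε n0
    refine (J_le hN (by positivity) (by positivity) h6 h7).trans ?_
    gcongr
    refine (hKJ n).le.trans ?_
    gcongr
  have h6 : ∀ ε : ℝ, 0 < ε → J Ω C ≤ ENNReal.ofReal ((1 + ε) * (1 + ε)) * m := by
    intro ε hε
    have h7 : Tendsto (fun n0 : ℕ => ENNReal.ofReal ((1 + ε) * (1 + ε)) *
        (m + ((n0 : ℝ≥0∞) + 1)⁻¹)) atTop (𝓝 (ENNReal.ofReal ((1 + ε) * (1 + ε)) * (m + 0))) := by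
      refine ENNReal.Tendsto.const_mul ?_ (Or.inr ENNReal.ofReal_ne_top)
      refine Tendsto.add tendsto_const_nhds ?_
      have h8 := (tendsto_add_atTop_iff_nat (f := fun n : ℕ => ((n : ℝ≥0∞))⁻¹) 1).2
        ENNReal.tendsto_inv_nat_nhds_zero
      refine h8.congr fun n => ?_
      rw [Nat.cast_add, Nat.cast_one]
    rw [add_zero] at h7
    exact ge_of_tendsto' h7 fun n0 => h5 ε hε n0
  have h7 : Tendsto (fun ε : ℝ => ENNReal.ofReal ((1 + ε) * (1 + ε)) * m) (𝓝[>] 0)
      (𝓝 (ENNReal.ofReal ((1 + 0) * (1 + 0)) * m)) := by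
    refine ENNReal.Tendsto.mul_const ?_ (Or.inr hmt)
    refine (ENNReal.continuous_ofReal.tendsto _).comp ?_
    have : Continuous fun ε : ℝ => (1 + ε) * (1 + ε) := by fun_prop
    exact (this.tendsto 0).mono_left nhdsWithin_le_nhds
  rw [add_zero, mul_one, ENNReal.ofReal_one, one_mul] at h7
  refine ge_of_tendsto h7 ?_
  filter_upwards [self_mem_nhdsWithin] with ε hε using h6 ε hε

lemma polar_bounded {K : Set (En N)} (hK : Anisotropy K) : volume (polar K) < ⊤ := by
  obtain ⟨r, hr, hrK⟩ := Metric.isOpen_iff.1 hK.isOpen 0 hK.zero_mem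
  have h : polar K ⊆ Metric.closedBall 0 (2 / r) := by
    intro x hx
    rw [mem_closedBall_zero_iff]
    rcases eq_or_ne x 0 with rfl | hx0
    · rw [norm_zero]; positivity
    have hxn : 0 < ‖x‖ := norm_pos_iff.2 hx0
    have h1 : (r / 2 * ‖x‖⁻¹) • x ∈ K := by
      apply hrK
      rw [mem_ball_zero_iff, norm_smul, Real.norm_of_nonneg (by positivity), mul_assoc,
        inv_mul_cancel₀ hxn.ne', mul_one]
      linarith
    have h2 := hx _ h1
    rw [inner_smul_right, real_inner_self_eq_norm_sq, sq, mul_assoc, ← mul_assoc ‖x‖⁻¹,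
      inv_mul_cancel₀ hxn.ne', one_mul] at h2
    rw [le_div_iff₀ hr]
    linarith
  exact (measure_mono h).trans_lt measure_closedBall_lt_top

/-- boxes have finite perimeter -/
lemma cheeger_lt_top (hN : N ≠ 0) {Ω K : Set (En N)} (hΩ : IsOpen Ω) (hne : Ω.Nonempty)
    (hK : Anisotropy K) : cheeger K Ω < ⊤ := by
  obtain ⟨n, rfl⟩ := Nat.exists_eq_succ_of_ne_zero hN
  obtain ⟨p, hp⟩ := hne
  obtain ⟨C, hC⟩ := hK.bounded.exists_norm_le
  have hC0 : 0 ≤ C := (norm_nonneg _).trans (hC 0 hK.zero_mem)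
  let T : (Fin (n + 1) → ℝ) → En (n + 1) := WithLp.toLp 2
  have hT : Continuous T := PiLp.continuous_toLp 2 _
  have hopen : IsOpen (T ⁻¹' Ω) := hΩ.preimage hT
  obtain ⟨ε, hε, hball⟩ := Metric.nhds_basis_closedBall.mem_iff.1
    (hopen.mem_nhds (show T (WithLp.ofLp p) ∈ Ω from hp))
  obtain ⟨a, ha⟩ : ∃ a : Fin (n + 1) → ℝ, a = fun i => WithLp.ofLp p i - ε := ⟨_, rfl⟩
  obtain ⟨b, hb⟩ : ∃ b : Fin (n + 1) → ℝ, b = fun i => WithLp.ofLp p i + ε := ⟨_, rfl⟩
  have hab : a ≤ b := fun i => by rw [ha, hb]; show _ - ε ≤ _ + ε; linarith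
  have hbox : Icc a b ⊆ T ⁻¹' Ω := by
    refine Subset.trans ?_ hball
    rw [closedBall_pi _ hε.le]
    intro x hx i _
    show x i ∈ Metric.closedBall (WithLp.ofLp p i) ε
    rw [Real.closedBall_eq_Icc]
    have h1 := hx.1 i
    have h2 := hx.2 i
    rw [ha] at h1
    rw [hb] at h2
    exact ⟨h1, h2⟩
  let E : Set (En (n + 1)) := WithLp.ofLp ⁻¹' Icc a b
  have hmp : MeasurePreserving (@WithLp.ofLp 2 (Fin (n + 1) → ℝ)) :=
    PiLp.volume_preserving_ofLp (Fin (n + 1))
  have hE1 : MeasurableSet E := hmp.measurable measurableSet_Icc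
  have hE2 : E ⊆ Ω := fun x hx => hbox hx
  have hE3 : volume E = volume (Icc a b) := hmp.measure_preimage measurableSet_Icc.nullMeasurableSet
  have hE4 : 0 < volume E := by
    rw [hE3, Real.volume_Icc_pi]
    refine pos_iff_ne_zero.2 (Finset.prod_ne_zero_iff.2 fun i _ => ?_)
    rw [Ne, ENNReal.ofReal_eq_zero, not_le, ha, hb]
    show 0 < WithLp.ofLp p i + ε - (WithLp.ofLp p i - ε)
    linarith
  let face : Fin (n + 1) → Set (Fin n → ℝ) := fun i => Icc (a ∘ i.succAbove) (b ∘ i.succAbove)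
  have hbound : perimeter K E ≤
      ENNReal.ofReal (∑ i, (C * (volume (face i)).toReal + C * (volume (face i)).toReal)) := by
    refine iSup_le fun φ => iSup_le fun h1 => iSup_le fun h2 => iSup_le fun h3 => ?_
    refine ENNReal.ofReal_le_ofReal ?_
    let g : (Fin (n + 1) → ℝ) → (Fin (n + 1) → ℝ) := fun x => WithLp.ofLp (φ (T x))
    let eL : En (n + 1) ≃L[ℝ] (Fin (n + 1) → ℝ) := EuclideanSpace.equiv (Fin (n + 1)) ℝ
    let g' : (Fin (n + 1) → ℝ) → (Fin (n + 1) → ℝ) →L[ℝ] (Fin (n + 1) → ℝ) := fun x =>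
      (eL : En (n + 1) →L[ℝ] _).comp ((fderiv ℝ φ (T x)).comp
        (eL.symm : _ →L[ℝ] En (n + 1)))
    have hg : ∀ x, HasFDerivAt g (g' x) x := by
      intro x
      have e1 : HasFDerivAt φ (fderiv ℝ φ (T x)) (T x) :=
        (h1.differentiable (by norm_num)).differentiableAt.hasFDerivAt
      have e2 : HasFDerivAt (fun x => φ (eL.symm x)) ((fderiv ℝ φ (T x)).comp
        (eL.symm : _ →L[ℝ] En (n + 1))) x := e1.comp x eL.symm.hasFDerivAt
      exact eL.hasFDerivAt.comp x e2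
    have hdiv : ∀ x, div φ (T x) = ∑ i, g' x (Pi.single i 1) i := by
      intro x
      rfl
    have hcont : Continuous fun x => ∑ i, g' x (Pi.single i 1) i := by
      have h4 : Continuous fun x => fderiv ℝ φ (T x) :=
        (h1.continuous_fderiv (by norm_num)).comp hT
      refine continuous_finsetSum _ fun i _ => ?_
      have h5 : Continuous fun x => (fderiv ℝ φ (T x)) (eL.symm (Pi.single i 1)) :=
        h4.clm_apply continuous_const
      exact (continuous_apply i).comp (eL.continuous.comp h5)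
    have e1 : ∫ x in E, div φ x = ∫ x in Icc a b, ∑ i, g' x (Pi.single i 1) i := by
      have h4 := hmp.setIntegral_preimage_emb
        (MeasurableEquiv.toLp 2 (Fin (n + 1) → ℝ)).symm.measurableEmbedding
        (fun x => div φ (T x)) (Icc a b)
      have h5 : ∫ x in E, div φ x = ∫ x in E, div φ (T (WithLp.ofLp x)) := rfl
      rw [h5]
      refine h4.trans ?_
      refine setIntegral_congr_fun measurableSet_Icc fun x _ => hdiv x
    rw [e1, integral_divergence_of_hasFDerivAt_off_countable a b hab g g' ∅ countable_empty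
      (fun x _ => (hg x).continuousAt.continuousWithinAt) (fun x _ => hg x)
      (hcont.continuousOn.integrableOn_compact isCompact_Icc)]
    refine Finset.sum_le_sum fun i _ => ?_
    have hgC : ∀ x, ‖g x i‖ ≤ C := fun x =>
      (PiLp.norm_apply_le (φ (T x)) i).trans (hC _ (h3 _))
    have hface : volume (face i) < ⊤ := isCompact_Icc.measure_lt_top
    have i1 : ‖∫ x in face i, g (i.insertNth (b i) x) i‖ ≤ C * (volume (face i)).toReal :=
      norm_setIntegral_le_of_norm_le_const hface fun x _ => hgC _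
    have i2 : ‖∫ x in face i, g (i.insertNth (a i) x) i‖ ≤ C * (volume (face i)).toReal :=
      norm_setIntegral_le_of_norm_le_const hface fun x _ => hgC _
    calc (∫ x in face i, g (i.insertNth (b i) x) i) - ∫ x in face i, g (i.insertNth (a i) x) i
        ≤ ‖∫ x in face i, g (i.insertNth (b i) x) i‖ + ‖∫ x in face i, g (i.insertNth (a i) x) i‖ := by
          have j1 := le_abs_self (∫ x in face i, g (i.insertNth (b i) x) i)
          have j2 := neg_abs_le (∫ x in face i, g (i.insertNth (a i) x) i)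
          rw [Real.norm_eq_abs, Real.norm_eq_abs]
          linarith
      _ ≤ _ := add_le_add i1 i2
  refine lt_of_le_of_lt (iInf_le_of_le E (iInf_le_of_le hE1 (iInf_le_of_le hE2
    (iInf_le_of_le hE4 le_rfl)))) ?_
  exact ENNReal.div_lt_top (ne_top_of_le_ne_top ENNReal.ofReal_ne_top hbound) hE4.ne'

/-- Let `N ≥ 1` and let `Ω ⊆ ℝ^N` be open, bounded and non-empty (no convexity is needed).  Then
`J_Ω` is finite on `𝒦_N` and has a minimizer in `𝒦_N`. -/
theorem result (N : ℕ) (hN : 1 ≤ N) (Ω : Set (En N)) (hΩ : IsOpen Ω)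
    (hb : Bornology.IsBounded Ω) (hne : Ω.Nonempty) :
    (∀ K : Set (En N), Anisotropy K → J Ω K < ⊤) ∧
    ∃ K : Set (En N), Anisotropy K ∧ ∀ K' : Set (En N), Anisotropy K' → J Ω K ≤ J Ω K' := by
  have hN0 : N ≠ 0 := by omega
  refine ⟨fun K hK => ?_, exists_min hN0 Ω hb⟩
  exact ENNReal.mul_lt_top (cheeger_lt_top hN0 hΩ hne hK)
    (ENNReal.rpow_lt_top_of_nonneg (by positivity) (polar_bounded hK).ne)

end Pool.Agent.Results.MP_302605_an.OptimalAnisotropy
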